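import Pool.Agent.T9h20.TA.Spec

/-!
# Project TA: the block lemma
-/

set_option autoImplicit false

open MeasureTheory Set
open scoped ENNReal NNReal

namespace Pool.Agent.T9h85.TA

open Pool.Agent.T9h20.TA

/-- integrate one coordinate first -/
theorem coord {ι : Type} [Fintype ι] [DecidableEq ι] (μ : ι → Measure ℝ)
    [∀ i, IsProbabilityMeasure (μ i)] {F : (ι → ℝ) → ℝ≥0∞} (hF : Measurable F) (i : ι) :
    ∫⁻ v, F v ∂(Measure.pi μ) = ∫⁻ v, ∫⁻ x, F (Function.update v i x) ∂(μ i) ∂(Measure.pi μ) := by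
  have hF' : Measurable fun v : ι → ℝ => ∫⁻ x, F (Function.update v i x) ∂(μ i) := by
    have h1 : Measurable fun p : (ι → ℝ) × ℝ => F (Function.update p.1 i p.2) := by
      apply hF.comp
      rw [measurable_pi_iff]
      intro k
      by_cases hk : k = i
      · subst hk
        simpa using measurable_snd
      · simp only [Function.update_of_ne hk]
        exact (measurable_pi_apply k).comp measurable_fst
    exact h1.lintegral_prod_right'
  rw [lintegral_eq_lmarginal_univ (μ := μ) (f := F) (fun _ => 0),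
    lintegral_eq_lmarginal_univ (μ := μ)
      (f := fun v => ∫⁻ x, F (Function.update v i x) ∂(μ i)) (fun _ => 0),
    lmarginal_erase' F hF (Finset.mem_univ i), lmarginal_erase' _ hF' (Finset.mem_univ i)]
  congr 1
  simp

/-- a density at most `B` -/
theorem dens {μ : Measure ℝ} {B : ℝ≥0} (hμ : μ ≤ (B : ℝ≥0∞) • (volume : Measure ℝ)) {g c : ℝ}
    (hg : |g| = 1) (φ : ℝ → ℝ≥0∞) :
    ∫⁻ x, φ (x * g + c) ∂μ ≤ B * ∫⁻ x, φ x := by
  have h1 : ∫⁻ x, φ (x * g + c) ∂μ ≤ ∫⁻ x, φ (x * g + c) ∂((B : ℝ≥0∞) • (volume : Measure ℝ)) :=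
    lintegral_mono' hμ le_rfl
  refine h1.trans (le_of_eq ?_)
  rw [lintegral_smul_measure, smul_eq_mul]
  congr 1
  rcases (abs_eq (by norm_num : (0 : ℝ) ≤ 1)).1 hg with h | h
  · subst h
    simp only [mul_one]
    exact lintegral_add_right_eq_self φ c
  · subst h
    have h2 : (fun x : ℝ => φ (x * -1 + c)) = fun x => φ (c - x) := by
      funext x
      congr 1
      ring
    rw [h2]
    exact lintegral_sub_left_eq_self φ c

theorem sBlock : SBlock := by
  classical
  intro t μ _ A B hB hA g h s0 hg hh φ hφ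
  have hm1 : Measurable fun v : Fin t → ℝ => ∑ s, v s * h s :=
    Finset.measurable_fun_sum _ fun s _ => (measurable_pi_apply s).mul_const _
  have hm2 : Measurable fun v : Fin t → ℝ => ∑ s, v s * g s :=
    Finset.measurable_fun_sum _ fun s _ => (measurable_pi_apply s).mul_const _
  have hF : Measurable fun v : Fin t → ℝ => ‖∑ s, v s * h s‖ₑ * φ (∑ s, v s * g s) :=
    hm1.enorm.mul (hφ.comp hm2)
  rw [coord μ hF s0]
  have e1 : ∀ (v : Fin t → ℝ) (x : ℝ), ∑ s, Function.update v s0 x s * h s = ∑ s, v s * h s := by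
    intro v x
    refine Finset.sum_congr rfl fun s _ => ?_
    by_cases hs : s = s0
    · subst hs
      rw [hh, mul_zero, mul_zero]
    · rw [Function.update_of_ne hs]
  have e2 : ∀ (v : Fin t → ℝ) (x : ℝ), ∑ s, Function.update v s0 x s * g s =
      x * g s0 + ∑ s ∈ Finset.univ.erase s0, v s * g s := by
    intro v x
    rw [← Finset.add_sum_erase _ _ (Finset.mem_univ s0), Function.update_self]
    congr 1
    refine Finset.sum_congr rfl fun s hs => ?_
    rw [Function.update_of_ne (Finset.ne_of_mem_erase hs)]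
  have h1 : ∀ v : Fin t → ℝ, ∫⁻ x, ‖∑ s, Function.update v s0 x s * h s‖ₑ *
      φ (∑ s, Function.update v s0 x s * g s) ∂(μ s0) ≤
      ‖∑ s, v s * h s‖ₑ * (B * ∫⁻ x, φ x) := by
    intro v
    simp only [e1, e2]
    have hφm : Measurable fun x : ℝ => φ (x * g s0 + ∑ s ∈ Finset.univ.erase s0, v s * g s) :=
      hφ.comp ((measurable_id.mul_const _).add_const _)
    rw [lintegral_const_mul _ hφm]
    exact mul_le_mul_right (dens (hB s0) hg φ) _
  refine (lintegral_mono h1).trans ?_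
  rw [lintegral_mul_const _ hm1.enorm]
  have h2 : ∫⁻ v, ‖∑ s, v s * h s‖ₑ ∂(Measure.pi μ) ≤ A * ∑ s, ‖h s‖ₑ := by
    calc ∫⁻ v, ‖∑ s, v s * h s‖ₑ ∂(Measure.pi μ) ≤ ∫⁻ v, ∑ s, ‖v s‖ₑ * ‖h s‖ₑ ∂(Measure.pi μ) := by
          apply lintegral_mono
          intro v
          refine (enorm_sum_le _ _).trans (le_of_eq ?_)
          simp only [enorm_mul]
      _ = ∑ s, (∫⁻ v, ‖v s‖ₑ ∂(Measure.pi μ)) * ‖h s‖ₑ := by
          rw [lintegral_finsetSum _ fun s _ => ((measurable_pi_apply s).enorm).mul_const _]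
          refine Finset.sum_congr rfl fun s _ => ?_
          rw [lintegral_mul_const _ (measurable_pi_apply s).enorm]
      _ ≤ ∑ s, (A : ℝ≥0∞) * ‖h s‖ₑ := by
          refine Finset.sum_le_sum fun s _ => ?_
          have h3 : ∫⁻ v, ‖v s‖ₑ ∂(Measure.pi μ) = ∫⁻ x, ‖x‖ₑ ∂(μ s) :=
            (measurePreserving_eval μ s).lintegral_comp measurable_enorm
          rw [h3]
          exact mul_le_mul_left (hA s) _
      _ = A * ∑ s, ‖h s‖ₑ := by rw [Finset.mul_sum]
  calc (∫⁻ v, ‖∑ s, v s * h s‖ₑ ∂(Measure.pi μ)) * (B * ∫⁻ x, φ x) ≤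
      (A * ∑ s, ‖h s‖ₑ) * (B * ∫⁻ x, φ x) := mul_le_mul_left h2 _
    _ = B * A * (∑ s, ‖h s‖ₑ) * ∫⁻ x, φ x := by ring

end Pool.Agent.T9h85.TA
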